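import Pool.Agent.Helper6.OB.Goals

/-!
# Packet OB-PR (MP_81e84b_lc)
-/

set_option autoImplicit false

namespace Pool.Agent.Helper8.OB

open Pool.Agent.Helper6.CS Pool.Agent.Helper6.OB
open Pool.Agent.Helper41.CS (len_app bdd_words over_app)

set_option synthInstance.maxSize 1000000000

/-- The bad colourings for `D`. -/
def Bad {M : Type} [World M] (a b : M) (G : M → Wd M × Wd M → Prop)
    (Φ : Wd M → Wd M × Wd M → M) (L r : M) (D : Wd M) (B χ : M) : Prop :=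
  ColB a (L + B) r χ ∧ ¬ ∃ y, Bk a y ∧ lb y ≤ B ∧ Dg a L χ y ∧ G L y ∧
    ∀ p, Over b p → (Cod.cd p : M) < D.len → Φ p y = D.get (Cod.cd p)

section

variable {M : Type} [World M] {α : Type} [Cod M α]

instance cBad (a b : M) (G : M → Wd M × Wd M → Prop) (Φ : Wd M → Wd M × Wd M → M)
    [IP M fun p : M × (Wd M × Wd M) => G p.1 p.2]
    [IFn M fun p : Wd M × (Wd M × Wd M) => Φ p.1 p.2] (L : M)
    {f g h : α → M} {k : α → Wd M} [hf : IFn M f] [hg : IFn M g] [hh : IFn M h] [hk : IFn M k] :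
    IP M fun x => Bad a b G Φ L (f x) (k x) (g x) (h x) := by
  unfold Bad
  infer_instance

theorem bad_mono {a b : M} {G : M → Wd M × Wd M → Prop} {Φ : Wd M → Wd M × Wd M → M}
    {L r r' : M} {D : Wd M} {B χ : M} (hr : r ≤ r') (h : Bad a b G Φ L r D B χ) :
    Bad a b G Φ L r' D B χ :=
  ⟨colB_mono le_rfl hr h.1, h.2⟩

theorem not_lam {a b : M} {G : M → Wd M × Wd M → Prop} {Φ : Wd M → Wd M × Wd M → M}
    {L : M} {D : Wd M} (h : ¬ Lam a b G Φ L D) : ∃ r, ∀ B, ∃ χ, Bad a b G Φ L r D B χ := by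
  unfold Lam at h
  push Not at h
  obtain ⟨r, hr⟩ := h
  refine ⟨r, fun B => ?_⟩
  obtain ⟨χ, h1, h2⟩ := hr B
  refine ⟨χ, h1, ?_⟩
  rintro ⟨y, hy1, hy2, hy3, hy4, hy5⟩
  obtain ⟨p, hp, hp', hp2⟩ := h2 y hy1 hy2 hy3 hy4
  exact hp2 (hy5 p hp hp')

end

theorem t_PR : G_PR := by
  classical
  intro hLMO hLST M _ a b ρ H G Φ hSt hΦ hρ N
  have iH := hSt.ifn
  have iG := hSt.ip
  have iΦ := hΦ.ifn
  obtain ⟨L, hL⟩ := hLST hLMO M a b ρ N H G Φ hSt hΦ.ifn
  by_contra hno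
  have h1 : ∀ D : Wd M, Over ρ D → D.len = N → ∃ r, ∀ B, ∃ χ, Bad a b G Φ L r D B χ := by
    intro D hD hl
    refine not_lam fun h => hno ⟨D, hl, hD, hL D hD hl h⟩
  obtain ⟨R, hR⟩ := coll (fun i r : M => (Over ρ (dec i : Wd M) ∧ (dec i : Wd M).len = N) →
    ∀ B, ∃ χ, Bad a b G Φ L r (dec i) B χ) (nb ρ N) (by
      intro i _
      by_cases h : Over ρ (dec i : Wd M) ∧ (dec i : Wd M).len = N
      · obtain ⟨r, hr⟩ := h1 _ h.1 h.2
        exact ⟨r, fun _ => hr⟩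
      · exact ⟨0, fun h' => absurd h' h⟩)
  have hR' : ∀ i, i < nb ρ N → (Over ρ (dec i : Wd M) ∧ (dec i : Wd M).len = N) →
      ∀ B, ∃ χ, Bad a b G Φ L (R + 1) (dec i) B χ := by
    intro i hi hc B
    obtain ⟨m, hm, h⟩ := hR i hi
    obtain ⟨χ, hχ⟩ := h hc B
    exact ⟨χ, bad_mono (hm.le.trans (le_add_of_nonneg_right zero_le_one)) hχ⟩
  obtain ⟨B, hB⟩ := hSt.many L (nb (R + 1) (nb ρ N))
  obtain ⟨z0, hz0⟩ := code_num (M := M) (fun _ => 0) a (L + B)
  let X : M → M := fun i => if Over ρ (dec i : Wd M) ∧ (dec i : Wd M).len = N then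
    lst (fun χ => Bad a b G Φ L (R + 1) (dec i) B χ) else z0
  have iX : IFn M X := by
    change IFn M fun i : M => if Over ρ (dec i : Wd M) ∧ (dec i : Wd M).len = N then
      lst (fun χ => Bad a b G Φ L (R + 1) (dec i) B χ) else z0
    infer_instance
  have hX : ∀ i, i < nb ρ N → (Over ρ (dec i : Wd M) ∧ (dec i : Wd M).len = N) →
      Bad a b G Φ L (R + 1) (dec i) B (X i) := by
    intro i hi hc
    have h : X i = lst (fun χ => Bad a b G Φ L (R + 1) (dec i) B χ) := if_pos hc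
    rw [h]
    exact lst_spec (P := fun χ => Bad a b G Φ L (R + 1) (dec i) B χ) (hR' i hi hc B)
  have hXc : ∀ i, i < nb ρ N → ColB a (L + B) (R + 1) (X i) := by
    intro i hi
    by_cases hc : Over ρ (dec i : Wd M) ∧ (dec i : Wd M).len = N
    · exact (hX i hi hc).1
    · have h : X i = z0 := if_neg hc
      rw [h]
      intro z hz hl
      rw [hz0 z hz hl]
      exact lt_of_lt_of_le zero_lt_one (le_add_of_nonneg_left (World.zero_le' _))
  obtain ⟨χ, hχ⟩ := code_num (M := M)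
    (fun z : Wd M => (Cod.cd (Wd.of (nb ρ N) fun i => apn (X i) z) : M)) a (L + B)
  have hχc : ColB a (L + B) (nb (R + 1) (nb ρ N)) χ := by
    intro z hz hl
    rw [hχ z hz hl]
    refine nb_spec ?_ (by rw [Wd.len_of])
    intro i hi
    rw [Wd.len_of] at hi
    rw [Wd.get_of_lt _ _ hi]
    exact hXc i hi z hz hl
  obtain ⟨y, hy1, hy2, hy3, hy4⟩ := hB χ hχc
  let D : Wd M := Wd.of N fun i => Φ (dec i) y
  have hDl : D.len = N := Wd.len_of _ _
  have hDo : Over ρ D := by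
    intro i hi
    rw [hDl] at hi
    have h : D.get i = Φ (dec i) y := Wd.get_of_lt _ _ hi
    rw [h]
    exact hρ _ _
  have hDc : (Cod.cd D : M) < nb ρ N := nb_spec hDo (by rw [hDl])
  have hdec : (dec (Cod.cd D : M) : Wd M) = D := dec_cd D
  have h2 := hX (Cod.cd D) hDc (by rw [hdec]; exact ⟨hDo, hDl⟩)
  rw [hdec] at h2
  refine h2.2 ⟨y, hy1, hy2, ?_, hy4, ?_⟩
  · intro g hg hl c d hc hd
    have hlen : ∀ c, (g ++ bl a c y).len ≤ L + B := by
      intro c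
      rw [len_app, len_bl]
      exact add_le_add hl hy2
    have h3 := hy3 g hg hl c d hc hd
    rw [hχ _ (over_app hg (over_bl' hy1 hc)) (hlen c), hχ _ (over_app hg (over_bl' hy1 hd)) (hlen d)]
      at h3
    have h4 := congrArg (fun w : Wd M => w.get (Cod.cd D)) (Cod.inj h3)
    rw [Wd.get_of_lt _ _ hDc, Wd.get_of_lt _ _ hDc] at h4
    exact h4
  · intro p _ hp
    rw [hDl] at hp
    have h : D.get (Cod.cd p) = Φ (dec (Cod.cd p)) y := Wd.get_of_lt _ _ hp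
    rw [h, dec_cd]

end Pool.Agent.Helper8.OB
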