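import Pool.Agent.Helper73.OB.GoalsA
import Pool.Agent.Helper81.OB.ROOT1

/-! GLUE3: the gluing property of the skeleton in model 3. -/

set_option autoImplicit false

open MeasureTheory ProbabilityTheory
open scoped ENNReal

namespace Pool.Agent.Helper8.OB

open Pool.Agent.Helper73.OB

variable {S : Type} {β : S → S} {p : Bit → S} {δ : Bit}

/-- The marker bit at the root. -/
abbrev Mr (β : S → S) : (RW β → Lb3) → Bool := fun ω ↦ (ω (rootW β)).1

/-- The real at the root. -/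
abbrev Vr (β : S → S) : (RW β → Lb3) → unitInterval := fun ω ↦ (ω (rootW β)).2.2.1

/-- The bits at the root. -/
abbrev Or' (β : S → S) : (RW β → Lb3) → Bit → Bit := fun ω ↦ (ω (rootW β)).2.2.2.2

/-- The skeleton of model 3. -/
noncomputable abbrev Sr (β : S → S) (p : Bit → S) (δ : Bit) : (RW β → Lb3) → Sk :=
  S3 p δ (shiftR β) (fun ω : RW β → Lb3 ↦ ω (rootW β))

/-- words starting with `p z` are not in the side -/
theorem cons_notMem (z : Bit) (w : List S) : p z :: w ∉ Side β (p z) := by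
  intro h
  exact h.2 rfl

theorem nil_mem (z : Bit) : ([] : List S) ∈ Side β (p z) := ⟨List.isChain_nil, by simp⟩

theorem bit_ne (z : Bit) : z + 1 ≠ z := by
  revert z; decide

theorem uw_zero (z : Bit) : uw p δ 0 z = ([] : List S) := rfl

theorem uw_mem (hF : Fr β p δ) (hUW : S_UW) (z : Bit) (k : ℕ) :
    uw p δ k (z + 1) ∈ Side β (p z) := by
  obtain ⟨h1, h2, -, -, -⟩ := hUW S β p δ hF
  cases k with
  | zero => exact nil_mem z
  | succ k =>
    refine ⟨(h1 _ _).1, ?_⟩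
    rw [h2]
    simp only [List.head?_cons, ne_eq, Option.some.injEq]
    intro h
    exact bit_ne z (hF.inj h)

theorem uw_notMem (hF : Fr β p δ) (hUW : S_UW) (z : Bit) {k : ℕ} (hk : 1 ≤ k) :
    uw p δ k z ∉ Side β (p z) := by
  obtain ⟨h1, h2, -, -, -⟩ := hUW S β p δ hF
  obtain ⟨k, rfl⟩ : ∃ j, k = j + 1 := ⟨k - 1, by omega⟩
  rw [h2]
  exact cons_notMem z _

theorem nearWord_eq (ω : RW β → Lb3) (z : Bit) :
    nearWord β p δ ω z = uw p δ (knear p δ (shiftR β) (Mr β) ω z) (z + 1) := by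
  unfold nearWord knear
  by_cases h : (ω (rootW β)).1 = true
  · rw [if_pos h, if_pos h]; rfl
  · rw [if_neg h, if_neg h]

theorem nearWord_mem (hF : Fr β p δ) (hUW : S_UW) (ω : RW β → Lb3) (z : Bit) :
    nearWord β p δ ω z ∈ Side β (p z) := by
  rw [nearWord_eq]
  exact uw_mem hF hUW z _

/-- the label at the end of a run from a shifted point -/
theorem run_run_root {u w : List S} (ω : RW β → Lb3) :
    run (shiftR β) u (run (shiftR β) w ω) (rootW β) = ω ⟨red β (w ++ u), red_Red β _⟩ := by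
  rw [← run_append, run_shiftR]
  congr 1
  apply Subtype.ext
  simp [rootW]

theorem run_root_red {w : List S} (hw : Red β w) (ω : RW β → Lb3) :
    run (shiftR β) w ω (rootW β) = ω ⟨w, hw⟩ := run_shiftR_root hw ω

/-- labels of the far end -/
theorem pfar_root (hF : Fr β p δ) (hUW : S_UW) (ω : RW β → Lb3) (z : Bit) :
    pfar p δ (shiftR β) (Mr β) ω z (rootW β) =
      ω ⟨uw p δ (kfar p δ (shiftR β) (Mr β) ω z) z, ((hUW S β p δ hF).1 _ _).1⟩ := by
  unfold pfar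
  exact run_root_red _ ω

/-- labels of the near end -/
theorem pnear_root (hF : Fr β p δ) (hUW : S_UW) (ω : RW β → Lb3) (z : Bit) :
    pnear p δ (shiftR β) (Mr β) ω z (rootW β) =
      ω ⟨nearWord β p δ ω z, (nearWord_mem hF hUW ω z).1⟩ := by
  unfold pnear
  by_cases h : (ω (rootW β)).1 = true
  · rw [if_pos h]
    congr 1
    apply Subtype.ext
    change [] = nearWord β p δ ω z
    unfold nearWord
    rw [if_pos h]
  · rw [if_neg h, pfar_root hF hUW]
    congr 1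
    apply Subtype.ext
    change uw p δ (kfar p δ (shiftR β) (Mr β) ω (z + 1)) (z + 1) = nearWord β p δ ω z
    unfold nearWord
    rw [if_neg h]

/-- The block functions depend only on the markers. -/
theorem kfar_congr (hF : Fr β p δ) (hUW : S_UW) {ω ω' : RW β → Lb3} {z : Bit}
    (h : ∀ k, 1 ≤ k → (ω ⟨uw p δ k z, ((hUW S β p δ hF).1 _ _).1⟩).1 =
      (ω' ⟨uw p δ k z, ((hUW S β p δ hF).1 _ _).1⟩).1) :
    kfar p δ (shiftR β) (Mr β) ω z = kfar p δ (shiftR β) (Mr β) ω' z := by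
  unfold kfar
  congr 1
  ext k
  simp only [Set.mem_ofPred_eq]
  constructor
  · rintro ⟨h1, h2⟩
    refine ⟨h1, ?_⟩
    change (run (shiftR β) (uw p δ k z) ω (rootW β)).1 = true at h2
    change (run (shiftR β) (uw p δ k z) ω' (rootW β)).1 = true
    rw [run_root_red ((hUW S β p δ hF).1 _ _).1] at h2 ⊢
    rw [← h k h1]
    exact h2
  · rintro ⟨h1, h2⟩
    refine ⟨h1, ?_⟩
    change (run (shiftR β) (uw p δ k z) ω' (rootW β)).1 = true at h2
    change (run (shiftR β) (uw p δ k z) ω (rootW β)).1 = true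
    rw [run_root_red ((hUW S β p δ hF).1 _ _).1] at h2 ⊢
    rw [h k h1]
    exact h2


theorem bitAt_eq (hF : Fr β p δ) (hUW : S_UW) (ω : RW β → Lb3) (z : Bit) :
    bitAt p δ (shiftR β) (Mr β) (Vr β) (Or' β) ω z =
      if (ω ⟨uw p δ (kfar p δ (shiftR β) (Mr β) ω z) z, ((hUW S β p δ hF).1 _ _).1⟩).2.2.1 <
          (ω ⟨nearWord β p δ ω z, (nearWord_mem hF hUW ω z).1⟩).2.2.1 then
        (ω ⟨nearWord β p δ ω z, (nearWord_mem hF hUW ω z).1⟩).2.2.2.2
            (snear p δ (shiftR β) (Mr β) ω z) +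
          (knear p δ (shiftR β) (Mr β) ω z : Bit) * (δ + 1)
      else
        (ω ⟨uw p δ (kfar p δ (shiftR β) (Mr β) ω z) z, ((hUW S β p δ hF).1 _ _).1⟩).2.2.2.2
            (sfar p δ (shiftR β) (Mr β) ω z) +
          ((kfar p δ (shiftR β) (Mr β) ω z : Bit) + 1) * (δ + 1) + δ := by
  unfold bitAt
  simp only [Vr, Or', pfar_root hF hUW, pnear_root hF hUW]

variable (β p δ) in
open Classical in
/-- The normal form of a point with the bit `c`. -/
noncomputable def NF (z c : Bit) (ω : RW β → Lb3) :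
    RW β → Lb3 := fun w ↦
  if w.1 ∈ Side β (p z) then
    ((ω w).1, (ω w).2.1, (ω w).2.2.1, (ω w).2.2.2.1, fun t ↦
      if w.1 = nearWord β p δ ω z ∧ t = snear p δ (shiftR β) (Mr β) ω z then 0
      else (ω w).2.2.2.2 t)
  else (true, 0, 1, 0, fun _ ↦ c + δ)

theorem NF_M_mem {z c : Bit} {ω : RW β → Lb3} {w : RW β} (h : w.1 ∈ Side β (p z)) :
    (NF β p δ z c ω w).1 = (ω w).1 := by
  unfold NF
  rw [if_pos h]

theorem NF_V_mem {z c : Bit} {ω : RW β → Lb3} {w : RW β} (h : w.1 ∈ Side β (p z)) :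
    (NF β p δ z c ω w).2.2.1 = (ω w).2.2.1 := by
  unfold NF
  rw [if_pos h]

theorem NF_not {z c : Bit} {ω : RW β → Lb3} {w : RW β} (h : w.1 ∉ Side β (p z)) :
    NF β p δ z c ω w = (true, 0, 1, 0, fun _ ↦ c + δ) := by
  unfold NF
  rw [if_neg h]

theorem NF_M_of {z c : Bit} {ω : RW β → Lb3} {w : RW β} (h : (ω w).1 = true) :
    (NF β p δ z c ω w).1 = true := by
  by_cases hw : w.1 ∈ Side β (p z)
  · rw [NF_M_mem hw, h]
  · rw [NF_not hw]

theorem NF_bit (hF : Fr β p δ) (hUW : S_UW) (z c : Bit) (ω : RW β → Lb3) :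
    bitAt p δ (shiftR β) (Mr β) (Vr β) (Or' β) (NF β p δ z c ω) z = c := by
  have h1 : uw p δ 1 z ∉ Side β (p z) := uw_notMem hF hUW z le_rfl
  have hk : kfar p δ (shiftR β) (Mr β) (NF β p δ z c ω) z = 1 := by
    have hmem : 1 ∈ {k | 1 ≤ k ∧
        (Mr β) (run (shiftR β) (uw p δ k z) (NF β p δ z c ω)) = true} := by
      refine ⟨le_rfl, ?_⟩
      change (run (shiftR β) (uw p δ 1 z) (NF β p δ z c ω) (rootW β)).1 = true
      rw [run_root_red ((hUW S β p δ hF).1 _ _).1, NF_not h1]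
    exact le_antisymm (Nat.sInf_le hmem) (Nat.sInf_mem ⟨1, hmem⟩).1
  rw [bitAt_eq hF hUW, hk, NF_not h1]
  have h2 : ¬ ((1 : unitInterval) <
      (NF β p δ z c ω ⟨nearWord β p δ (NF β p δ z c ω) z,
        (nearWord_mem hF hUW (NF β p δ z c ω) z).1⟩).2.2.1) := not_lt.2 le_top
  rw [if_neg h2]
  change (c + δ) + (((1 : ℕ) : Bit) + 1) * (δ + 1) + δ = c
  clear h2 hk h1 hUW hF
  revert c δ
  decide

variable (β p δ) in
/-- The good set. -/
def Gd (ω : RW β → Lb3) : Prop :=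
  (∀ (w : RW β) (t : Bit),
    (∃ k, 1 ≤ k ∧ (Mr β) (run (shiftR β) (uw p δ k t) (run (shiftR β) w.1 ω)) = true) ∧
    (Vr β) (pfar p δ (shiftR β) (Mr β) (run (shiftR β) w.1 ω) t) ≠ (Vr β) (run (shiftR β) w.1 ω) ∧
    (Vr β) (pfar p δ (shiftR β) (Mr β) (run (shiftR β) w.1 ω) t) ≠
      (Vr β) (pfar p δ (shiftR β) (Mr β) (run (shiftR β) w.1 ω) (t + 1))) ∧
  ∀ w : RW β, (ω w).2.2.1 ≠ 1

theorem Red.invw (hβ : ∀ s, β (β s) = s) {w : List S} (h : Red β w) : Red β (invw β w) := by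
  unfold Red Pool.Agent.Helper73.OB.invw at *
  rw [List.isChain_reverse, List.isChain_map]
  refine List.IsChain.imp ?_ h
  intro a b hab
  rw [hβ]
  exact fun h ↦ hab h.symm

/-- A word that leaves the side starts with the inverse of the starting word. -/
theorem leave (hF : Fr β p δ) {z : Bit} {w u : List S} (hw : w ∈ Side β (p z)) (hu : Red β u)
    (h : red β (w ++ u) ∉ Side β (p z)) : ∃ v, u = invw β w ++ p z :: v := by
  have h1 : (red β (w ++ u)).head? = some (p z) := by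
    by_contra hc
    exact h ⟨red_Red β _, hc⟩
  obtain ⟨v, hv⟩ : ∃ v, red β (w ++ u) = p z :: v := by
    cases hr : red β (w ++ u) with
    | nil => rw [hr] at h1; simp at h1
    | cons a v =>
      rw [hr] at h1
      simp only [List.head?_cons, Option.some.injEq] at h1
      exact ⟨v, by rw [h1]⟩
  refine ⟨v, prefix_of_head hF.inv hu ?_ (by rw [invw_invw hF.inv]; exact hv)⟩
  refine Pool.Agent.Helper73.OB.Red.append (Red.invw hF.inv hw.1) (List.isChain_singleton _) ?_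
  intro a ha b hb
  have hb' : b = p z := by simpa using hb.symm
  subst hb'
  intro hc
  apply hw.2
  unfold Pool.Agent.Helper73.OB.invw at ha
  rw [List.getLast?_reverse, List.head?_map] at ha
  cases hh : w.head? with
  | none => rw [hh] at ha; simp at ha
  | some x =>
    rw [hh] at ha
    have hax : a = β x := by simpa using ha.symm
    rw [hc, hax, hF.inv]

theorem leave_two (hF : Fr β p δ) (hUW : S_UW) {z : Bit} {w : List S} (hw : w ∈ Side β (p z))
    {k k' : ℕ} {t : Bit} (hk : 1 ≤ k) (hk' : 1 ≤ k')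
    (h1 : red β (w ++ uw p δ k t) ∉ Side β (p z))
    (h2 : red β (w ++ uw p δ k' (t + 1)) ∉ Side β (p z)) : False := by
  obtain ⟨hr, hs, -, -, -⟩ := hUW S β p δ hF
  obtain ⟨v1, e1⟩ := leave hF hw (hr k t).1 h1
  obtain ⟨v2, e2⟩ := leave hF hw (hr k' (t + 1)).1 h2
  obtain ⟨j, rfl⟩ : ∃ j, k = j + 1 := ⟨k - 1, by omega⟩
  obtain ⟨j', rfl⟩ : ∃ j, k' = j + 1 := ⟨k' - 1, by omega⟩
  rw [hs] at e1 e2
  have g1 := congrArg List.head? e1
  have g2 := congrArg List.head? e2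
  have g3 : (invw β w ++ p z :: v1).head? = (invw β w ++ p z :: v2).head? := by
    cases invw β w with
    | nil => rfl
    | cons a l => rfl
  rw [← g1, ← g2] at g3
  simp only [List.head?_cons, Option.some.injEq] at g3
  exact bit_ne t (hF.inj g3).symm


theorem M_run {u w : List S} (ω : RW β → Lb3) :
    (Mr β) (run (shiftR β) u (run (shiftR β) w ω)) = (ω ⟨red β (w ++ u), red_Red β _⟩).1 := by
  change (run (shiftR β) u (run (shiftR β) w ω) (rootW β)).1 = _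
  rw [run_run_root]

theorem V_far (ω : RW β → Lb3) (w : List S) (t : Bit) :
    (Vr β) (pfar p δ (shiftR β) (Mr β) (run (shiftR β) w ω) t) =
      (ω ⟨red β (w ++ uw p δ (kfar p δ (shiftR β) (Mr β) (run (shiftR β) w ω) t) t),
        red_Red β _⟩).2.2.1 := by
  change (run (shiftR β) _ (run (shiftR β) w ω) (rootW β)).2.2.1 = _
  rw [run_run_root]

theorem nf_exists {z c : Bit} {ω : RW β → Lb3} (hG : Gd β p δ ω) {w : List S}
    (hw : Red β w) (t : Bit) :
    ∃ k, 1 ≤ k ∧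
      (Mr β) (run (shiftR β) (uw p δ k t) (run (shiftR β) w (NF β p δ z c ω))) = true := by
  obtain ⟨k, hk, h⟩ := (hG.1 ⟨w, hw⟩ t).1
  refine ⟨k, hk, ?_⟩
  rw [M_run] at h ⊢
  exact NF_M_of h

theorem far_cases {z c : Bit} {ω : RW β → Lb3} (hG : Gd β p δ ω) {w : List S}
    (hw : Red β w) (t : Bit) :
    1 ≤ kfar p δ (shiftR β) (Mr β) (run (shiftR β) w (NF β p δ z c ω)) t ∧
    ((red β (w ++ uw p δ
        (kfar p δ (shiftR β) (Mr β) (run (shiftR β) w (NF β p δ z c ω)) t) t) ∈ Side β (p z) ∧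
      (Vr β) (pfar p δ (shiftR β) (Mr β) (run (shiftR β) w (NF β p δ z c ω)) t) =
        (Vr β) (pfar p δ (shiftR β) (Mr β) (run (shiftR β) w ω) t)) ∨
    (red β (w ++ uw p δ
        (kfar p δ (shiftR β) (Mr β) (run (shiftR β) w (NF β p δ z c ω)) t) t) ∉ Side β (p z) ∧
      (Vr β) (pfar p δ (shiftR β) (Mr β) (run (shiftR β) w (NF β p δ z c ω)) t) = 1)) := by
  have hex := nf_exists (c := c) (z := z) hG hw t
  have hmem := Nat.sInf_mem hex
  have hmem' := Nat.sInf_mem (hG.1 ⟨w, hw⟩ t).1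
  change 1 ≤ kfar p δ (shiftR β) (Mr β) (run (shiftR β) w (NF β p δ z c ω)) t ∧
    (Mr β) (run (shiftR β)
      (uw p δ (kfar p δ (shiftR β) (Mr β) (run (shiftR β) w (NF β p δ z c ω)) t) t)
      (run (shiftR β) w (NF β p δ z c ω))) = true at hmem
  change 1 ≤ kfar p δ (shiftR β) (Mr β) (run (shiftR β) w ω) t ∧
    (Mr β) (run (shiftR β)
      (uw p δ (kfar p δ (shiftR β) (Mr β) (run (shiftR β) w ω) t) t)
      (run (shiftR β) w ω)) = true at hmem'
  refine ⟨hmem.1, ?_⟩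
  rw [M_run] at hmem hmem'
  by_cases h : red β (w ++ uw p δ
        (kfar p δ (shiftR β) (Mr β) (run (shiftR β) w (NF β p δ z c ω)) t) t) ∈ Side β (p z)
  · left
    refine ⟨h, ?_⟩
    have hk : kfar p δ (shiftR β) (Mr β) (run (shiftR β) w (NF β p δ z c ω)) t =
        kfar p δ (shiftR β) (Mr β) (run (shiftR β) w ω) t := by
      apply le_antisymm
      · refine Nat.sInf_le ⟨hmem'.1, ?_⟩
        rw [M_run]
        exact NF_M_of hmem'.2
      · refine Nat.sInf_le ⟨hmem.1, ?_⟩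
        rw [M_run, ← NF_M_mem (δ := δ) (c := c) (z := z) (ω := ω) (w := ⟨_, red_Red β _⟩) h]
        exact hmem.2
    rw [V_far, V_far, ← hk, NF_V_mem (w := ⟨_, red_Red β _⟩) h]
  · right
    refine ⟨h, ?_⟩
    rw [V_far, NF_not (w := ⟨_, red_Red β _⟩) h]

theorem V_far_ne_one {ω : RW β → Lb3} (hG : Gd β p δ ω) (w : List S) (t : Bit) :
    (Vr β) (pfar p δ (shiftR β) (Mr β) (run (shiftR β) w ω) t) ≠ 1 := by
  rw [V_far]
  exact hG.2 _

theorem root_run {w : List S} (hw : Red β w) (ω : RW β → Lb3) :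
    run (shiftR β) w ω (rootW β) = ω ⟨w, hw⟩ := run_shiftR_root hw ω

theorem nf_ne (hF : Fr β p δ) (hUW : S_UW) {z c : Bit} {ω : RW β → Lb3} (hG : Gd β p δ ω)
    {w : List S} (hw : w ∈ Side β (p z)) (t : Bit) :
    (Vr β) (pfar p δ (shiftR β) (Mr β) (run (shiftR β) w (NF β p δ z c ω)) t) ≠
      (Vr β) (pnear p δ (shiftR β) (Mr β) (run (shiftR β) w (NF β p δ z c ω)) t) := by
  have hVw : (Vr β) (run (shiftR β) w (NF β p δ z c ω)) = (Vr β) (run (shiftR β) w ω) := by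
    change (run (shiftR β) w (NF β p δ z c ω) (rootW β)).2.2.1 =
      (run (shiftR β) w ω (rootW β)).2.2.1
    rw [root_run hw.1, root_run hw.1, NF_V_mem (w := ⟨w, hw.1⟩) hw]
  have hV1 : (Vr β) (run (shiftR β) w ω) ≠ 1 := by
    change (run (shiftR β) w ω (rootW β)).2.2.1 ≠ 1
    rw [root_run hw.1]
    exact hG.2 _
  obtain ⟨k1, hc1⟩ := far_cases (c := c) (z := z) hG hw.1 t
  obtain ⟨k2, hc2⟩ := far_cases (c := c) (z := z) hG hw.1 (t + 1)
  have g := (hG.1 ⟨w, hw.1⟩ t).2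
  unfold pnear
  split_ifs with hM
  · rw [hVw]
    rcases hc1 with ⟨-, h⟩ | ⟨-, h⟩
    · rw [h]
      exact g.1
    · rw [h]
      exact hV1.symm
  · rcases hc1 with ⟨-, h⟩ | ⟨h1, h⟩
    · rcases hc2 with ⟨-, h'⟩ | ⟨-, h'⟩
      · rw [h, h']
        exact g.2
      · rw [h, h']
        exact V_far_ne_one hG _ _
    · rcases hc2 with ⟨-, h'⟩ | ⟨h1', h'⟩
      · rw [h, h']
        exact (V_far_ne_one hG _ _).symm
      · exact (leave_two hF hUW hw k1 k2 h1 h1').elim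

theorem gd_ne {ω : RW β → Lb3} (hG : Gd β p δ ω) {w : List S} (hw : Red β w) (t : Bit) :
    (Vr β) (pfar p δ (shiftR β) (Mr β) (run (shiftR β) w ω) t) ≠
      (Vr β) (pnear p δ (shiftR β) (Mr β) (run (shiftR β) w ω) t) := by
  have g := (hG.1 ⟨w, hw⟩ t).2
  unfold pnear
  split_ifs with hM
  · exact g.1
  · exact g.2

/-- The side field of a good point is the side field of its normal form. -/
theorem side_eq (hLOCB : S_LOCB) (hF : Fr β p δ) (hUW : S_UW) {z c : Bit} {ω : RW β → Lb3}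
    (hG : Gd β p δ ω) (hc : bitAt p δ (shiftR β) (Mr β) (Vr β) (Or' β) ω z = c) {w : List S}
    (hw : w ∈ Side β (p z)) :
    (Sr β p δ) (run (shiftR β) w ω) = (Sr β p δ) (run (shiftR β) w (NF β p δ z c ω)) := by
  refine hLOCB S β p δ hF z ω (NF β p δ z c ω) ?_ ?_ ?_ w hw
  · intro v hv
    refine ⟨(NF_M_mem hv).symm, ?_, (NF_V_mem hv).symm, ?_, ?_⟩
    · unfold NF; rw [if_pos hv]
    · unfold NF; rw [if_pos hv]
    · intro t
      by_cases h : v.1 = nearWord β p δ ω z ∧ t = snear p δ (shiftR β) (Mr β) ω z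
      · right; exact h
      · left
        unfold NF
        rw [if_pos hv]
        simp only
        rw [if_neg h]
  · intro v hv t η hη
    rcases hη with rfl | hη
    · exact ⟨(hG.1 ⟨v, hv.1⟩ t).1, gd_ne hG hv.1 t⟩
    · rw [Set.mem_singleton_iff] at hη
      subst hη
      exact ⟨nf_exists hG hv.1 t, nf_ne hF hUW hG hv t⟩
  · rw [NF_bit hF hUW]
    exact hc


/-! ### Flips -/

variable (β) in
open Classical in
/-- Flip the `o`-bit of one slot. -/
noncomputable def flp (q : RW β × Bit) (ω : RW β → Lb3) : RW β → Lb3 := fun w ↦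
  Pool.Agent.Helper81.OB.flipL (fun t ↦ if w = q.1 ∧ t = q.2 then 1 else 0) (ω w)

theorem flp_mp (hP : IsProbabilityMeasure fair) (e : unitInterval)
    (hb : IsProbabilityMeasure (ber e)) (hl : IsProbabilityMeasure (lawL3 e)) (q : RW β × Bit) :
    MeasurePreserving (flp β q) (iid β (lawL3 e)) (iid β (lawL3 e)) := by
  classical
  have hf : ∀ w : RW β, MeasurePreserving
      (Pool.Agent.Helper81.OB.flipL (fun t ↦ if w = q.1 ∧ t = q.2 then (1 : Bit) else 0))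
      (lawL3 e) (lawL3 e) :=
    fun w ↦ Pool.Agent.Helper81.OB.flipL_mp hP e hb _
  refine ⟨measurable_pi_lambda _ fun w ↦ (hf w).measurable.comp (measurable_pi_apply w), ?_⟩
  have h1 := Measure.infinitePi_map_pi (μ := fun _ : RW β ↦ lawL3 e)
    (f := fun w ↦ Pool.Agent.Helper81.OB.flipL
      (fun t ↦ if w = q.1 ∧ t = q.2 then (1 : Bit) else 0)) (fun w ↦ (hf w).measurable)
  simp only [(hf _).map_eq] at h1
  exact h1

theorem flp_1 (q : RW β × Bit) (ω : RW β → Lb3) (w : RW β) : (flp β q ω w).1 = (ω w).1 := rfl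

theorem flp_V (q : RW β × Bit) (ω : RW β → Lb3) (w : RW β) :
    (flp β q ω w).2.2.1 = (ω w).2.2.1 := rfl

open Classical in
theorem flp_o (q : RW β × Bit) (ω : RW β → Lb3) (w : RW β) (t : Bit) :
    (flp β q ω w).2.2.2.2 t =
      (ω w).2.2.2.2 t + if w = q.1 ∧ t = q.2 then 1 else 0 := rfl

/-- Flip at a slot that depends only on the markers. -/
theorem flq_mp [Countable (RW β)] (hP : IsProbabilityMeasure fair) (e : unitInterval)
    (hb : IsProbabilityMeasure (ber e)) (hl : IsProbabilityMeasure (lawL3 e))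
    (q : (RW β → Lb3) → RW β × Bit) (hq : ∀ r, MeasurableSet {ω | q ω = r})
    (hi : ∀ r ω, q (flp β r ω) = q ω) :
    MeasurePreserving (fun ω ↦ flp β (q ω) ω) (iid β (lawL3 e)) (iid β (lawL3 e)) := by
  have hpre : ∀ A : Set (RW β → Lb3), (fun ω ↦ flp β (q ω) ω) ⁻¹' A =
      ⋃ r, ({ω | q ω = r} ∩ flp β r ⁻¹' A) := by
    intro A
    ext ω
    simp only [Set.mem_preimage, Set.mem_iUnion, Set.mem_inter_iff, Set.mem_ofPred_eq]
    constructor
    · intro h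
      exact ⟨q ω, rfl, h⟩
    · rintro ⟨r, hr, h⟩
      rw [hr]
      exact h
  have hm : Measurable (fun ω ↦ flp β (q ω) ω) := by
    intro A hA
    rw [hpre]
    exact MeasurableSet.iUnion fun r ↦ (hq r).inter ((flp_mp hP e hb hl r).measurable hA)
  refine ⟨hm, ?_⟩
  ext A hA
  rw [Measure.map_apply hm hA, hpre]
  have hd : Pairwise (Function.onFun Disjoint fun r : RW β × Bit ↦ {ω | q ω = r} ∩ flp β r ⁻¹' A) := by
    intro r r' hr
    refine Set.disjoint_left.2 ?_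
    rintro ω ⟨h1, -⟩ ⟨h2, -⟩
    exact hr (h1.symm.trans h2)
  have hd' : Pairwise (Function.onFun Disjoint fun r : RW β × Bit ↦ {ω | q ω = r} ∩ A) := by
    intro r r' hr
    refine Set.disjoint_left.2 ?_
    rintro ω ⟨h1, -⟩ ⟨h2, -⟩
    exact hr (h1.symm.trans h2)
  rw [measure_iUnion hd fun r ↦ (hq r).inter ((flp_mp hP e hb hl r).measurable hA)]
  have hA' : A = ⋃ r : RW β × Bit, ({ω | q ω = r} ∩ A) := by
    ext ω
    simp
  conv_rhs => rw [hA']
  rw [measure_iUnion hd' fun r ↦ (hq r).inter hA]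
  refine tsum_congr fun r ↦ ?_
  have e1 : {ω | q ω = r} ∩ flp β r ⁻¹' A = flp β r ⁻¹' ({ω | q ω = r} ∩ A) := by
    ext ω
    simp only [Set.mem_inter_iff, Set.mem_preimage, Set.mem_ofPred_eq, hi]
  rw [e1, (flp_mp hP e hb hl r).measure_preimage ((hq r).inter hA).nullMeasurableSet]

/-! ### Congruence -/

theorem kfar_congr' (hF : Fr β p δ) (hUW : S_UW) {ω ω' : RW β → Lb3} (z : Bit)
    (h : ∀ w, (ω w).1 = (ω' w).1) :
    kfar p δ (shiftR β) (Mr β) ω z = kfar p δ (shiftR β) (Mr β) ω' z :=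
  kfar_congr hF hUW fun _ _ ↦ h _

theorem near_congr (hF : Fr β p δ) (hUW : S_UW) {ω ω' : RW β → Lb3} (z : Bit)
    (h : ∀ w : RW β, w.1 ∈ Side β (p z) → (ω w).1 = (ω' w).1) :
    nearWord β p δ ω z = nearWord β p δ ω' z ∧
      snear p δ (shiftR β) (Mr β) ω z = snear p δ (shiftR β) (Mr β) ω' z ∧
      knear p δ (shiftR β) (Mr β) ω z = knear p δ (shiftR β) (Mr β) ω' z := by
  have h0 : (ω (rootW β)).1 = (ω' (rootW β)).1 := h _ (nil_mem z)
  have hk : kfar p δ (shiftR β) (Mr β) ω (z + 1) = kfar p δ (shiftR β) (Mr β) ω' (z + 1) :=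
    kfar_congr hF hUW fun k _ ↦ h _ (uw_mem hF hUW z k)
  unfold nearWord snear knear sfar
  rw [hk]
  simp only [h0]
  exact ⟨trivial, trivial, trivial⟩

/-! ### The two slots of the block through `(root, z)` -/

/-- The near slot. -/
noncomputable def q1 (hF : Fr β p δ) (hUW : S_UW) (z : Bit) (ω : RW β → Lb3) : RW β × Bit :=
  (⟨nearWord β p δ ω z, (nearWord_mem hF hUW ω z).1⟩, snear p δ (shiftR β) (Mr β) ω z)

/-- The far slot. -/
noncomputable def q2 (hF : Fr β p δ) (hUW : S_UW) (z : Bit) (ω : RW β → Lb3) : RW β × Bit :=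
  (⟨uw p δ (kfar p δ (shiftR β) (Mr β) ω z) z, ((hUW S β p δ hF).1 _ _).1⟩,
    sfar p δ (shiftR β) (Mr β) ω z)

theorem q1_congr (hF : Fr β p δ) (hUW : S_UW) (z : Bit) {ω ω' : RW β → Lb3}
    (h : ∀ w : RW β, w.1 ∈ Side β (p z) → (ω w).1 = (ω' w).1) :
    q1 hF hUW z ω = q1 hF hUW z ω' := by
  obtain ⟨h1, h2, -⟩ := near_congr hF hUW z h
  unfold q1
  refine Prod.ext (Subtype.ext h1) h2

theorem q2_congr (hF : Fr β p δ) (hUW : S_UW) (z : Bit) {ω ω' : RW β → Lb3}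
    (h : ∀ w, (ω w).1 = (ω' w).1) : q2 hF hUW z ω = q2 hF hUW z ω' := by
  have hk := kfar_congr' hF hUW z h
  unfold q2 sfar
  refine Prod.ext (Subtype.ext ?_) ?_
  · simp only [hk]
  · simp only [hk]

/-- The normal form in terms of `q1`. -/
theorem nf_o (hF : Fr β p δ) (hUW : S_UW) {z c : Bit} {ω : RW β → Lb3} {w : RW β}
    (h : w.1 ∈ Side β (p z)) (t : Bit) :
    (w = (q1 hF hUW z ω).1 ∧ t = (q1 hF hUW z ω).2 → (NF β p δ z c ω w).2.2.2.2 t = 0) ∧
    (¬ (w = (q1 hF hUW z ω).1 ∧ t = (q1 hF hUW z ω).2) →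
      (NF β p δ z c ω w).2.2.2.2 t = (ω w).2.2.2.2 t) := by
  have hiff : (w = (q1 hF hUW z ω).1 ∧ t = (q1 hF hUW z ω).2) ↔
      (w.1 = nearWord β p δ ω z ∧ t = snear p δ (shiftR β) (Mr β) ω z) := by
    unfold q1
    rw [Subtype.ext_iff]
  constructor
  · intro h1
    rw [hiff] at h1
    unfold NF
    rw [if_pos h]
    exact if_pos h1
  · intro h1
    rw [hiff] at h1
    unfold NF
    rw [if_pos h]
    exact if_neg h1

/-- Two points with the same normal form. -/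
theorem nf_ext (hF : Fr β p δ) (hUW : S_UW) {z c : Bit} {ω ω' : RW β → Lb3}
    (h : ∀ w : RW β, w.1 ∈ Side β (p z) → (ω w).1 = (ω' w).1 ∧ (ω w).2.1 = (ω' w).2.1 ∧
      (ω w).2.2.1 = (ω' w).2.2.1 ∧ (ω w).2.2.2.1 = (ω' w).2.2.2.1 ∧
      ∀ t, ¬ (w = (q1 hF hUW z ω).1 ∧ t = (q1 hF hUW z ω).2) →
        (ω w).2.2.2.2 t = (ω' w).2.2.2.2 t) :
    NF β p δ z c ω = NF β p δ z c ω' := by
  have hq := q1_congr hF hUW z fun w hw ↦ (h w hw).1
  funext w
  by_cases hw : w.1 ∈ Side β (p z)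
  · obtain ⟨h1, h2, h3, h4, h5⟩ := h w hw
    have ho : ∀ t, (NF β p δ z c ω w).2.2.2.2 t = (NF β p δ z c ω' w).2.2.2.2 t := by
      intro t
      by_cases ht : w = (q1 hF hUW z ω).1 ∧ t = (q1 hF hUW z ω).2
      · rw [(nf_o hF hUW hw t).1 ht, (nf_o hF hUW hw t).1 (by rw [← hq]; exact ht)]
      · rw [(nf_o hF hUW hw t).2 ht, (nf_o hF hUW hw t).2 (by rw [← hq]; exact ht)]
        exact h5 t ht
    refine Prod.ext ?_ (Prod.ext ?_ (Prod.ext ?_ (Prod.ext ?_ (funext ho))))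
    · rw [NF_M_mem hw, NF_M_mem hw]; exact h1
    · unfold NF; rw [if_pos hw, if_pos hw]; exact h2
    · unfold NF; rw [if_pos hw, if_pos hw]; exact h3
    · unfold NF; rw [if_pos hw, if_pos hw]; exact h4
  · rw [NF_not hw, NF_not hw]

theorem nf_flp (hF : Fr β p δ) (hUW : S_UW) {z c : Bit} {ω : RW β → Lb3} {r : RW β × Bit}
    (hr : r = q1 hF hUW z ω ∨ r.1.1 ∉ Side β (p z)) :
    NF β p δ z c (flp β r ω) = NF β p δ z c ω := by
  symm
  refine nf_ext hF hUW fun w hw ↦ ⟨rfl, rfl, rfl, rfl, ?_⟩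
  intro t ht
  rw [flp_o]
  rw [if_neg, add_zero]
  rintro ⟨h1, h2⟩
  rcases hr with rfl | hr
  · exact ht ⟨h1, h2⟩
  · rw [← h1] at hr
    exact hr hw


/-- The flip of both slots. -/
noncomputable def TT (hF : Fr β p δ) (hUW : S_UW) (z : Bit) (ω : RW β → Lb3) : RW β → Lb3 :=
  flp β (q2 hF hUW z ω) (flp β (q1 hF hUW z ω) ω)

theorem bit_TT (hF : Fr β p δ) (hUW : S_UW) (z : Bit) {ω : RW β → Lb3}
    (hk : 1 ≤ kfar p δ (shiftR β) (Mr β) ω z) :
    bitAt p δ (shiftR β) (Mr β) (Vr β) (Or' β) (TT hF hUW z ω) z =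
      bitAt p δ (shiftR β) (Mr β) (Vr β) (Or' β) ω z + 1 := by
  have hc : ∀ w, (TT hF hUW z ω w).1 = (ω w).1 := fun w ↦ rfl
  have hV : ∀ w, (TT hF hUW z ω w).2.2.1 = (ω w).2.2.1 := fun w ↦ rfl
  have e1 := kfar_congr' hF hUW z hc
  obtain ⟨e2, e3, e4⟩ := near_congr hF hUW z (ω := TT hF hUW z ω) (ω' := ω) fun w _ ↦ hc w
  have e5 : sfar p δ (shiftR β) (Mr β) (TT hF hUW z ω) z = sfar p δ (shiftR β) (Mr β) ω z := by
    unfold sfar; rw [e1]
  have hne : (q1 hF hUW z ω).1 ≠ (q2 hF hUW z ω).1 := by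
    intro h
    have h1 : (q1 hF hUW z ω).1.1 ∈ Side β (p z) := nearWord_mem hF hUW ω z
    rw [h] at h1
    exact uw_notMem hF hUW z hk h1
  have o1 : (TT hF hUW z ω (q1 hF hUW z ω).1).2.2.2.2 (q1 hF hUW z ω).2 =
      (ω (q1 hF hUW z ω).1).2.2.2.2 (q1 hF hUW z ω).2 + 1 := by
    unfold TT
    rw [flp_o, flp_o, if_pos ⟨rfl, rfl⟩, if_neg fun h ↦ hne h.1, add_zero]
  have o2 : (TT hF hUW z ω (q2 hF hUW z ω).1).2.2.2.2 (q2 hF hUW z ω).2 =
      (ω (q2 hF hUW z ω).1).2.2.2.2 (q2 hF hUW z ω).2 + 1 := by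
    unfold TT
    rw [flp_o, flp_o, if_neg (fun h ↦ hne h.1.symm), if_pos ⟨rfl, rfl⟩, add_zero]
  unfold q1 at o1
  unfold q2 at o2
  rw [bitAt_eq hF hUW, bitAt_eq hF hUW]
  simp only [e1, e2, e3, e4, e5, hV]
  simp only at o1 o2
  rw [o1, o2]
  split_ifs
  · ring
  · ring

theorem shift_flp (hF : Fr β p δ) (s : S) (r : RW β × Bit) (ω : RW β → Lb3) :
    shiftR β s (flp β r ω) =
      flp β (⟨ls β (β s) r.1.1, r.1.2.ls (β s)⟩, r.2) (shiftR β s ω) := by
  classical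
  funext w
  unfold shiftR flp
  congr 1
  funext t
  have hiff : (⟨ls β s w.1, w.2.ls s⟩ : RW β) = r.1 ↔
      w = ⟨ls β (β s) r.1.1, r.1.2.ls (β s)⟩ :=
    (Equiv.eq_symm_apply (lsEquiv hF.inv s) (x := r.1) (y := w)).symm
  simp only [hiff]

theorem z_eq (δ z : Bit) : z + 1 + δ + 1 = z + δ := by
  revert δ z; decide

theorem nf_shift (hBLK : S_BLK) (hF : Fr β p δ) (hUW : S_UW) {z c : Bit} {ω : RW β → Lb3}
    (hex : ∀ t : Bit, ∃ k, 1 ≤ k ∧ (Mr β) (run (shiftR β) (uw p δ k t) ω) = true)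
    {η : RW β → Lb3} (hη : ∀ w, (η w).1 = (ω w).1) {r : RW β × Bit}
    (hr : r = q1 hF hUW z ω ∨ r = q2 hF hUW z ω) :
    NF β p δ (z + 1 + δ) c (shiftR β (p z) (flp β r η)) =
      NF β p δ (z + 1 + δ) c (shiftR β (p z) η) := by
  obtain ⟨hr1, hr2, -, -, -⟩ := hUW S β p δ hF
  rw [shift_flp hF]
  apply nf_flp hF hUW
  rcases hr with rfl | rfl
  · right
    have h1 : (q1 hF hUW z ω).1.1 ∈ Side β (p z) := nearWord_mem hF hUW ω z
    have h2 : ls β (β (p z)) (q1 hF hUW z ω).1.1 = β (p z) :: (q1 hF hUW z ω).1.1 := by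
      unfold ls
      rw [if_neg]
      rw [hF.inv]
      exact h1.2
    change ls β (β (p z)) (q1 hF hUW z ω).1.1 ∉ _
    rw [h2, hF.bp]
    exact cons_notMem _ _
  · left
    obtain ⟨⟨-, -, -, -, b1, b2⟩, -⟩ :=
      hBLK S (RW β → Lb3) β p δ hF (shiftR β) (shiftR_inv hF.inv) (Mr β) ω hex z
    have hq : q1 hF hUW (z + 1 + δ) (shiftR β (p z) η) =
        q1 hF hUW (z + 1 + δ) (shiftR β (p z) ω) :=
      q1_congr hF hUW _ fun w _ ↦ hη _
    rw [hq]
    unfold q1 q2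
    refine Prod.ext (Subtype.ext ?_) b1.symm
    change ls β (β (p z)) (uw p δ (kfar p δ (shiftR β) (Mr β) ω z) z) =
      nearWord β p δ (shiftR β (p z) ω) (z + 1 + δ)
    rw [nearWord_eq, ← b2, hr2, z_eq]
    unfold ls
    rw [if_pos]
    · rfl
    · rw [hF.inv]
      rfl

/-! ### Measurability -/

variable (β) in
/-- The σ-algebra of a set of coordinates. -/
@[reducible] def mQ (Q : Set (RW β)) : MeasurableSpace (RW β → Lb3) :=
  ⨆ w ∈ Q, MeasurableSpace.comap (fun ω : RW β → Lb3 ↦ ω w) inferInstance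

theorem mQ_indep (e : unitInterval) (hl : IsProbabilityMeasure (lawL3 e)) {Q Q' : Set (RW β)}
    (h : Disjoint Q Q') : Indep (mQ β Q) (mQ β Q') (iid β (lawL3 e)) := by
  have h1 : iIndepFun (fun (w : RW β) (ω : RW β → Lb3) ↦ ω w) (iid β (lawL3 e)) :=
    iIndepFun_infinitePi (P := fun _ : RW β ↦ lawL3 e) (X := fun _ x ↦ x)
      (fun _ ↦ measurable_id)
  rw [iIndepFun_iff_iIndep] at h1
  exact indep_iSup_of_disjoint (fun w ↦ (measurable_pi_apply w).comap_le) h1 h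

theorem mQ_apply {Q : Set (RW β)} {w : RW β} (hw : w ∈ Q) :
    @Measurable _ _ (mQ β Q) _ (fun ω : RW β → Lb3 ↦ ω w) :=
  (comap_measurable _).mono (le_iSup₂ (f := fun w (_ : w ∈ Q) ↦
    MeasurableSpace.comap (fun ω : RW β → Lb3 ↦ ω w) inferInstance) w hw) le_rfl

open Classical in
variable (β p) in
/-- Forget the coordinates outside the side. -/
noncomputable def rho (z : Bit) (ω : RW β → Lb3) : RW β → Lb3 := fun w ↦
  if w.1 ∈ Side β (p z) then ω w else (true, 0, 1, 0, 0)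

theorem nf_rho (hF : Fr β p δ) (hUW : S_UW) (z c : Bit) (ω : RW β → Lb3) :
    NF β p δ z c (rho β p z ω) = NF β p δ z c ω := by
  symm
  refine nf_ext hF hUW fun w hw ↦ ?_
  have : rho β p z ω w = ω w := if_pos hw
  rw [this]
  exact ⟨rfl, rfl, rfl, rfl, fun _ _ ↦ rfl⟩

theorem rho_meas (z : Bit) :
    @Measurable _ _ (mQ β {w | w.1 ∈ Side β (p z)}) _ (rho β p z) := by
  refine @measurable_pi_lambda _ _ _ (mQ β _) _ _ fun w ↦ ?_
  by_cases hw : w.1 ∈ Side β (p z)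
  · have : (fun ω : RW β → Lb3 ↦ rho β p z ω w) = fun ω ↦ ω w := by
      funext ω; exact if_pos hw
    rw [this]
    exact mQ_apply hw
  · have : (fun ω : RW β → Lb3 ↦ rho β p z ω w) = fun _ ↦ (true, 0, 1, 0, 0) := by
      funext ω; exact if_neg hw
    rw [this]
    exact @measurable_const _ _ _ (mQ β _) _

theorem rho_shift_meas (hF : Fr β p δ) (z : Bit) :
    @Measurable _ _ (mQ β {w | w.1 ∉ Side β (p z)}) _
      (fun ω : RW β → Lb3 ↦ rho β p (z + 1 + δ) (shiftR β (p z) ω)) := by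
  refine @measurable_pi_lambda _ _ _ (mQ β _) _ _ fun w ↦ ?_
  by_cases hw : w.1 ∈ Side β (p (z + 1 + δ))
  · have : (fun ω : RW β → Lb3 ↦ rho β p (z + 1 + δ) (shiftR β (p z) ω) w) =
        fun ω ↦ ω ⟨ls β (p z) w.1, w.2.ls (p z)⟩ := by
      funext ω; exact if_pos hw
    rw [this]
    apply mQ_apply
    change ls β (p z) w.1 ∉ Side β (p z)
    have h2 : ls β (p z) w.1 = p z :: w.1 := by
      unfold ls
      rw [if_neg]
      rw [hF.bp]
      exact hw.2
    rw [h2]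
    exact cons_notMem _ _
  · have : (fun ω : RW β → Lb3 ↦ rho β p (z + 1 + δ) (shiftR β (p z) ω) w) =
        fun _ ↦ (true, 0, 1, 0, 0) := by
      funext ω; exact if_neg hw
    rw [this]
    exact @measurable_const _ _ _ (mQ β _) _


section Meas

variable [Finite S]

theorem shift_meas (hMOD : S_MODSYS) (hPRB : S_PRB) (hF : Fr β p δ) (e : unitInterval) (s : S) :
    Measurable (shiftR (L := Lb3) β s) := by
  have hl := (hPRB.2 e).2.2.2.1
  exact ((hMOD S β hF.inv Lb3 (lawL3 e)).1.mp s).measurable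

omit [Finite S] in
theorem MM_meas : Measurable ((Mr β) : (RW β → Lb3) → Bool) := (measurable_pi_apply _).fst

omit [Finite S] in
theorem VV_meas : Measurable ((Vr β) : (RW β → Lb3) → unitInterval) :=
  (measurable_pi_apply _).snd.snd.fst

omit [Finite S] in
theorem OO_meas : Measurable ((Or' β) : (RW β → Lb3) → (Bit → Bit)) :=
  (measurable_pi_apply _).snd.snd.snd.snd

theorem kfar_meas (hMEAS : S_MEAS) (hs : ∀ s, Measurable (shiftR (L := Lb3) β s)) (z : Bit) :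
    Measurable (fun ω ↦ kfar p δ (shiftR β) (Mr β) ω z) :=
  ((hMEAS S (RW β → Lb3) p δ (shiftR β) hs).1 (Mr β) (Vr β) (Or' β) z MM_meas VV_meas OO_meas).1

theorem bit_meas (hMEAS : S_MEAS) (hs : ∀ s, Measurable (shiftR (L := Lb3) β s)) (z : Bit) :
    Measurable (fun ω ↦ bitAt p δ (shiftR β) (Mr β) (Vr β) (Or' β) ω z) :=
  ((hMEAS S (RW β → Lb3) p δ (shiftR β) hs).1 (Mr β) (Vr β) (Or' β) z MM_meas VV_meas OO_meas).2.2.2

theorem q1_meas (hMEAS : S_MEAS) (hs : ∀ s, Measurable (shiftR (L := Lb3) β s))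
    (hF : Fr β p δ) (hUW : S_UW) (z : Bit) (r : RW β × Bit) :
    MeasurableSet {ω | q1 hF hUW z ω = r} := by
  have h1 : Measurable (fun ω : RW β → Lb3 ↦
      ((ω (rootW β)).1, kfar p δ (shiftR β) (Mr β) ω (z + 1))) :=
    MM_meas.prodMk (kfar_meas hMEAS hs (z + 1))
  set G : Bool × ℕ → RW β × Bit := fun x ↦
    if x.1 = true then (rootW β, z)
    else (⟨uw p δ x.2 (z + 1), ((hUW S β p δ hF).1 _ _).1⟩, z + 1 + 1 + (x.2 : Bit) * δ) with hG
  have h2 : ∀ ω, q1 hF hUW z ω =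
      G ((ω (rootW β)).1, kfar p δ (shiftR β) (Mr β) ω (z + 1)) := by
    intro ω
    rw [hG]
    unfold q1
    by_cases h : (ω (rootW β)).1 = true
    · simp only [if_pos h]
      refine Prod.ext (Subtype.ext ?_) ?_
      · change nearWord β p δ ω z = []
        unfold nearWord
        rw [if_pos h]
      · change snear p δ (shiftR β) (Mr β) ω z = z
        unfold snear
        rw [if_pos h]
    · simp only [if_neg h]
      refine Prod.ext (Subtype.ext ?_) ?_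
      · change nearWord β p δ ω z = _
        unfold nearWord
        rw [if_neg h]
      · change snear p δ (shiftR β) (Mr β) ω z = _
        unfold snear
        rw [if_neg h]
        rfl
  have h3 : {ω | q1 hF hUW z ω = r} = (fun ω : RW β → Lb3 ↦
      ((ω (rootW β)).1, kfar p δ (shiftR β) (Mr β) ω (z + 1))) ⁻¹' {x | G x = r} := by
    ext ω
    simp only [Set.mem_ofPred_eq, Set.mem_preimage, h2]
  rw [h3]
  exact h1 (MeasurableSet.of_discrete)

theorem q2_meas (hMEAS : S_MEAS) (hs : ∀ s, Measurable (shiftR (L := Lb3) β s))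
    (hF : Fr β p δ) (hUW : S_UW) (z : Bit) (r : RW β × Bit) :
    MeasurableSet {ω | q2 hF hUW z ω = r} := by
  have h3 : {ω | q2 hF hUW z ω = r} = (fun ω : RW β → Lb3 ↦
      kfar p δ (shiftR β) (Mr β) ω z) ⁻¹' {k |
        ((⟨uw p δ k z, ((hUW S β p δ hF).1 _ _).1⟩, z + 1 + (k : Bit) * δ) : RW β × Bit) = r} := by
    ext ω
    rfl
  rw [h3]
  exact (kfar_meas hMEAS hs z) (MeasurableSet.of_discrete)

theorem nf_meas (hMEAS : S_MEAS) (hs : ∀ s, Measurable (shiftR (L := Lb3) β s))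
    (hF : Fr β p δ) (hUW : S_UW) (z c : Bit) :
    Measurable (NF β p δ z c) := by
  classical
  refine measurable_pi_lambda _ fun w ↦ ?_
  by_cases hw : w.1 ∈ Side β (p z)
  · have h1 : (fun ω ↦ NF β p δ z c ω w) = fun ω : RW β → Lb3 ↦
        ((ω w).1, (ω w).2.1, (ω w).2.2.1, (ω w).2.2.2.1, fun t ↦
          if q1 hF hUW z ω = (w, t) then (0 : Bit) else (ω w).2.2.2.2 t) := by
      funext ω
      refine Prod.ext (NF_M_mem hw) (Prod.ext ?_ (Prod.ext (NF_V_mem hw)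
        (Prod.ext ?_ (funext fun t ↦ ?_))))
      · unfold NF; rw [if_pos hw]
      · unfold NF; rw [if_pos hw]
      · by_cases ht : q1 hF hUW z ω = (w, t)
        · simp only [if_pos ht]
          exact (nf_o hF hUW hw t).1 ⟨by rw [ht], by rw [ht]⟩
        · simp only [if_neg ht]
          exact (nf_o hF hUW hw t).2 fun h ↦ ht (Prod.ext h.1.symm h.2.symm)
    rw [h1]
    have h2 : Measurable fun ω : RW β → Lb3 ↦ ω w := measurable_pi_apply w
    refine h2.fst.prodMk (h2.snd.fst.prodMk (h2.snd.snd.fst.prodMk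
      (h2.snd.snd.snd.fst.prodMk (measurable_pi_lambda _ fun t ↦ ?_))))
    exact Measurable.ite (q1_meas hMEAS hs hF hUW z (w, t)) measurable_const
      ((measurable_pi_apply t).comp h2.snd.snd.snd.snd)
  · have h1 : (fun ω ↦ NF β p δ z c ω w) = fun ω : RW β → Lb3 ↦
        (true, 0, 1, 0, fun _ ↦ c + δ) := by
      funext ω
      exact NF_not hw
    rw [h1]
    exact measurable_const

theorem gd_ae (hFAR : S_FAR) (hPRB : S_PRB) (hMOD : S_MODSYS) (hF : Fr β p δ)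
    (e : unitInterval) (he : 0 < e) : ∀ᵐ ω ∂(iid β (lawL3 e)), Gd β p δ ω := by
  have hl := (hPRB.2 e).2.2.2.1
  have hcS : Countable S := inferInstance
  have hcR : Countable (RW β) := inferInstance
  obtain ⟨hsys, hbnl⟩ := hMOD S β hF.inv Lb3 (lawL3 e)
  have hm1 : lawL3 e {s | s.1 = true} = ENNReal.ofReal e := (hPRB.2 e).2.2.2.2.2.2.2.1
  have hm2 : ∀ t : unitInterval, lawL3 e {s | s.2.2.1 = t} = 0 := (hPRB.2 e).2.2.2.2.2.2.2.2.1
  have h1 := hFAR S β p δ hF (RW β → Lb3) (iid β (lawL3 e)) (shiftR β) hsys Lb3 (lawL3 e)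
    (fun ω : RW β → Lb3 ↦ ω (rootW β)) hbnl (fun a ↦ a.1) (fun a ↦ a.2.2.1)
    measurable_fst measurable_snd.snd.fst (by rw [hm1]; simpa using he) hm2
  have h2 : ∀ w : RW β, ∀ᵐ ω ∂(iid β (lawL3 e)), ∀ t : Bit,
      (∃ k, 1 ≤ k ∧ (Mr β) (run (shiftR β) (uw p δ k t) (run (shiftR β) w.1 ω)) = true) ∧
      (Vr β) (pfar p δ (shiftR β) (Mr β) (run (shiftR β) w.1 ω) t) ≠ (Vr β) (run (shiftR β) w.1 ω) ∧
      (Vr β) (pfar p δ (shiftR β) (Mr β) (run (shiftR β) w.1 ω) t) ≠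
        (Vr β) (pfar p δ (shiftR β) (Mr β) (run (shiftR β) w.1 ω) (t + 1)) :=
    fun w ↦ (hsys.run_mp w.1).quasiMeasurePreserving.ae h1
  have h3 : ∀ w : RW β, ∀ᵐ ω ∂(iid β (lawL3 e)), (ω w).2.2.1 ≠ 1 := by
    intro w
    have h4 : ∀ᵐ a ∂(lawL3 e), a.2.2.1 ≠ (1 : unitInterval) := by
      rw [ae_iff]
      simp only [ne_eq, not_not]
      exact hm2 1
    exact (measurePreserving_eval_infinitePi (fun _ : RW β ↦ lawL3 e)
      w).quasiMeasurePreserving.ae h4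
  filter_upwards [ae_all_iff.2 h2, ae_all_iff.2 h3] with ω g1 g2
  exact ⟨g1, g2⟩


omit [Finite S] in
theorem gd_kfar {ω : RW β → Lb3} (hG : Gd β p δ ω) (z : Bit) :
    1 ≤ kfar p δ (shiftR β) (Mr β) ω z :=
  (Nat.sInf_mem (hG.1 (rootW β) z).1).1

theorem TT_mp (hMEAS : S_MEAS) (hPRB : S_PRB) (hs : ∀ s, Measurable (shiftR (L := Lb3) β s))
    (hF : Fr β p δ) (hUW : S_UW) (e : unitInterval) (z : Bit) :
    MeasurePreserving (TT hF hUW z) (iid β (lawL3 e)) (iid β (lawL3 e)) := by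
  have hP := hPRB.1
  have hb := (hPRB.2 e).1
  have hl := (hPRB.2 e).2.2.2.1
  have hcR : Countable (RW β) := inferInstance
  have h1 := flq_mp hP e hb hl (q1 hF hUW z) (q1_meas hMEAS hs hF hUW z)
    (fun r ω ↦ q1_congr hF hUW z fun w _ ↦ rfl)
  have h2 := flq_mp hP e hb hl (q2 hF hUW z) (q2_meas hMEAS hs hF hUW z)
    (fun r ω ↦ q2_congr hF hUW z fun w ↦ rfl)
  have h3 : TT hF hUW z = (fun ω ↦ flp β (q2 hF hUW z ω) ω) ∘
      (fun ω ↦ flp β (q1 hF hUW z ω) ω) := by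
    funext ω
    change flp β (q2 hF hUW z ω) (flp β (q1 hF hUW z ω) ω) =
      flp β (q2 hF hUW z (flp β (q1 hF hUW z ω) ω)) (flp β (q1 hF hUW z ω) ω)
    rw [q2_congr hF hUW z (ω := flp β (q1 hF hUW z ω) ω) (ω' := ω) fun w ↦ rfl]
  rw [h3]
  exact h2.comp h1

omit [Finite S] in
theorem bit_iff1 (b c : Bit) : (¬ b = c) ↔ b = c + 1 := by
  revert b c; decide

theorem half_eq (hMEAS : S_MEAS) (hPRB : S_PRB) (hFAR : S_FAR) (hMOD : S_MODSYS)
    (hF : Fr β p δ) (hUW : S_UW) (e : unitInterval) (he : 0 < e) (z c : Bit)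
    {A : Set (RW β → Lb3)} (hA : MeasurableSet A)
    (hinv : ∀ ω, Gd β p δ ω → (TT hF hUW z ω ∈ A ↔ ω ∈ A)) :
    2 * iid β (lawL3 e) ({ω | bitAt p δ (shiftR β) (Mr β) (Vr β) (Or' β) ω z = c} ∩ A) =
      iid β (lawL3 e) A := by
  have hs : ∀ s, Measurable (shiftR (L := Lb3) β s) := shift_meas hMOD hPRB hF e
  have hT := TT_mp hMEAS hPRB hs hF hUW e z
  have hBm := bit_meas (p := p) (δ := δ) hMEAS hs z
  have hBs : ∀ d : Bit, MeasurableSet {ω | bitAt p δ (shiftR β) (Mr β) (Vr β) (Or' β) ω z = d} := fun d ↦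
    hBm (measurableSet_singleton d)
  have e1 : iid β (lawL3 e) ({ω | bitAt p δ (shiftR β) (Mr β) (Vr β) (Or' β) ω z = c} ∩ A) =
      iid β (lawL3 e) ({ω | bitAt p δ (shiftR β) (Mr β) (Vr β) (Or' β) ω z = c + 1} ∩ A) := by
    rw [← hT.measure_preimage ((hBs c).inter hA).nullMeasurableSet]
    apply measure_congr
    filter_upwards [gd_ae hFAR hPRB hMOD hF e he] with ω hG
    have h1 := bit_TT hF hUW z (gd_kfar hG z)
    have h2 : (bitAt p δ (shiftR β) (Mr β) (Vr β) (Or' β) (TT hF hUW z ω) z = c) ↔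
        (bitAt p δ (shiftR β) (Mr β) (Vr β) (Or' β) ω z = c + 1) := by
      rw [h1]
      generalize bitAt p δ (shiftR β) (Mr β) (Vr β) (Or' β) ω z = b
      revert b c
      decide
    apply propext
    change (bitAt p δ (shiftR β) (Mr β) (Vr β) (Or' β) (TT hF hUW z ω) z = c ∧ TT hF hUW z ω ∈ A) ↔
      (bitAt p δ (shiftR β) (Mr β) (Vr β) (Or' β) ω z = c + 1 ∧ ω ∈ A)
    rw [h2, hinv ω hG]
  have e2 : A \ {ω | bitAt p δ (shiftR β) (Mr β) (Vr β) (Or' β) ω z = c} =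
      {ω | bitAt p δ (shiftR β) (Mr β) (Vr β) (Or' β) ω z = c + 1} ∩ A := by
    ext ω
    have h2 : (¬ bitAt p δ (shiftR β) (Mr β) (Vr β) (Or' β) ω z = c) ↔
        (bitAt p δ (shiftR β) (Mr β) (Vr β) (Or' β) ω z = c + 1) := bit_iff1 _ _
    simp only [Set.mem_sdiff, Set.mem_ofPred_eq, Set.mem_inter_iff, h2]
    exact and_comm
  have e3 := measure_inter_add_sdiff (μ := iid β (lawL3 e)) A (hBs c)
  rw [e2, ← e1, Set.inter_comm A] at e3
  rw [← e3, two_mul]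

omit [Finite S] in
theorem S3_bit (ω : RW β → Lb3) (z : Bit) :
    ((Sr β p δ) ω).2.1 δ z = bitAt p δ (shiftR β) (Mr β) (Vr β) (Or' β) ω z := by
  unfold Sr S3
  simp

theorem sig_meas (hMEAS : S_MEAS) (hPRB : S_PRB) (hMOD : S_MODSYS) (hF : Fr β p δ)
    (e : unitInterval) {Q : Set (List S)} {E : Set (RW β → Lb3)}
    (hE : MeasurableSet[sig (shiftR β) (Sr β p δ) Q] E) : MeasurableSet E := by
  have hl := (hPRB.2 e).2.2.2.1
  have hs : ∀ s, Measurable (shiftR (L := Lb3) β s) := shift_meas hMOD hPRB hF e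
  have hS := ((hMEAS S (RW β → Lb3) p δ (shiftR β) hs).2.1
    (fun ω : RW β → Lb3 ↦ ω (rootW β)) (measurable_pi_apply _)).1
  obtain ⟨B, hB, rfl⟩ := sig_iff.1 hE
  have hsys := (hMOD S β hF.inv Lb3 (lawL3 e)).1
  exact (measurable_pi_lambda _ fun w : Q ↦ hS.comp (hsys.run_mp w.1).measurable) hB

omit [Finite S] in
theorem sig_nf (hLOCB : S_LOCB) (hF : Fr β p δ) (hUW : S_UW) {z c : Bit}
    {E : Set (RW β → Lb3)} (hE : MeasurableSet[sig (shiftR β) (Sr β p δ) (Side β (p z))] E)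
    {ω : RW β → Lb3} (hG : Gd β p δ ω)
    (hc : bitAt p δ (shiftR β) (Mr β) (Vr β) (Or' β) ω z = c) : ω ∈ E ↔ NF β p δ z c ω ∈ E := by
  obtain ⟨B, hB, rfl⟩ := sig_iff.1 hE
  have h1 : (fun w : Side β (p z) ↦ (Sr β p δ) (run (shiftR β) w.1 ω)) =
      fun w : Side β (p z) ↦ (Sr β p δ) (run (shiftR β) w.1 (NF β p δ z c ω)) :=
    funext fun w ↦ side_eq hLOCB hF hUW hG hc w.2
  simp only [Set.mem_preimage]
  rw [h1]

theorem glue3_core (hLOCB : S_LOCB) (hUW : S_UW) (hBLK : S_BLK) (hBIT : S_BIT) (hFAR : S_FAR)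
    (hPRB : S_PRB) (hMEAS : S_MEAS) (hMOD : S_MODSYS) (hF : Fr β p δ) (e : unitInterval)
    (he : 0 < e) (z c : Bit) (E F : Set (RW β → Lb3))
    (hE : MeasurableSet[sig (shiftR β) (Sr β p δ) (Side β (p z))] E)
    (hFs : MeasurableSet[sig (shiftR β) (Sr β p δ) (Side β (β (p z)))] F) :
    iid β (lawL3 e) ({x | ((Sr β p δ) x).2.1 δ z = c} ∩ E ∩ shiftR β (p z) ⁻¹' F) =
      2 * iid β (lawL3 e) ({x | ((Sr β p δ) x).2.1 δ z = c} ∩ E) *
        iid β (lawL3 e) ({x | ((Sr β p δ) x).2.1 δ (z + 1 + δ) = c + δ} ∩ F) := by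
  have hl := (hPRB.2 e).2.2.2.1
  have hs : ∀ s, Measurable (shiftR (L := Lb3) β s) := shift_meas hMOD hPRB hF e
  have hsys := (hMOD S β hF.inv Lb3 (lawL3 e)).1
  have hBm := bit_meas (p := p) (δ := δ) hMEAS hs z
  have hBs : MeasurableSet {ω | bitAt p δ (shiftR β) (Mr β) (Vr β) (Or' β) ω z = c} :=
    hBm (measurableSet_singleton c)
  rw [hF.bp z] at hFs
  have hEm : MeasurableSet E := sig_meas hMEAS hPRB hMOD hF e hE
  have hFm : MeasurableSet F := sig_meas hMEAS hPRB hMOD hF e hFs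
  set E' : Set (RW β → Lb3) := NF β p δ z c ⁻¹' E with hE'
  set F' : Set (RW β → Lb3) :=
    (fun ω ↦ NF β p δ (z + 1 + δ) (c + δ) (shiftR β (p z) ω)) ⁻¹' F with hF'
  have hE'm : MeasurableSet E' := nf_meas hMEAS hs hF hUW z c hEm
  have hF'm : MeasurableSet F' := ((nf_meas hMEAS hs hF hUW (z + 1 + δ) (c + δ)).comp (hs (p z))) hFm
  -- independence
  have hE'q : MeasurableSet[mQ β {w | w.1 ∈ Side β (p z)}] E' := by
    have h1 : E' = rho β p z ⁻¹' (NF β p δ z c ⁻¹' E) := by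
      ext ω
      rw [hE']
      simp only [Set.mem_preimage, nf_rho hF hUW]
    rw [h1]
    exact rho_meas z (nf_meas hMEAS hs hF hUW z c hEm)
  have hF'q : MeasurableSet[mQ β {w | w.1 ∉ Side β (p z)}] F' := by
    have h1 : F' = (fun ω : RW β → Lb3 ↦ rho β p (z + 1 + δ) (shiftR β (p z) ω)) ⁻¹'
        (NF β p δ (z + 1 + δ) (c + δ) ⁻¹' F) := by
      ext ω
      rw [hF']
      simp only [Set.mem_preimage, nf_rho hF hUW]
    rw [h1]
    exact rho_shift_meas hF z (nf_meas hMEAS hs hF hUW (z + 1 + δ) (c + δ) hFm)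
  have hind : iid β (lawL3 e) (E' ∩ F') = iid β (lawL3 e) E' * iid β (lawL3 e) F' := by
    refine (Indep_iff _ _ _).1 (mQ_indep e hl ?_) E' F' hE'q hF'q
    exact Set.disjoint_left.2 fun w h1 h2 ↦ h2 h1
  -- invariance
  have iE : ∀ ω, Gd β p δ ω → (TT hF hUW z ω ∈ E' ↔ ω ∈ E') := by
    intro ω hG
    have h1 : NF β p δ z c (TT hF hUW z ω) = NF β p δ z c ω := by
      unfold TT
      rw [nf_flp hF hUW (Or.inr (uw_notMem hF hUW z (gd_kfar hG z))),
        nf_flp hF hUW (Or.inl rfl)]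
    rw [hE', Set.mem_preimage, Set.mem_preimage, h1]
  have iF : ∀ ω, Gd β p δ ω → (TT hF hUW z ω ∈ F' ↔ ω ∈ F') := by
    intro ω hG
    have h1 : NF β p δ (z + 1 + δ) (c + δ) (shiftR β (p z) (TT hF hUW z ω)) =
        NF β p δ (z + 1 + δ) (c + δ) (shiftR β (p z) ω) := by
      have hex : ∀ t : Bit, ∃ k, 1 ≤ k ∧ (Mr β) (run (shiftR β) (uw p δ k t) ω) = true :=
        fun t ↦ (hG.1 (rootW β) t).1
      unfold TT
      rw [nf_shift hBLK hF hUW (ω := ω) hex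
          (η := flp β (q1 hF hUW z ω) ω) (fun _ ↦ rfl) (Or.inr rfl),
        nf_shift hBLK hF hUW (ω := ω) hex
          (η := ω) (fun _ ↦ rfl) (Or.inl rfl)]
    rw [hF', Set.mem_preimage, Set.mem_preimage, h1]
  have k1 := half_eq hMEAS hPRB hFAR hMOD hF hUW e he z c (hE'm.inter hF'm)
    (fun ω hG ↦ by rw [Set.mem_inter_iff, Set.mem_inter_iff, iE ω hG, iF ω hG])
  have k2 := half_eq hMEAS hPRB hFAR hMOD hF hUW e he z c hE'm iE
  have k3 := half_eq hMEAS hPRB hFAR hMOD hF hUW e he z c hF'm iF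
  -- almost everywhere equalities
  have hgd := gd_ae hFAR hPRB hMOD hF e he
  have hgd' : ∀ᵐ ω ∂(iid β (lawL3 e)), Gd β p δ (shiftR β (p z) ω) :=
    (hsys.mp (p z)).quasiMeasurePreserving.ae hgd
  have hedge : ∀ ω, Gd β p δ ω → (bitAt p δ (shiftR β) (Mr β) (Vr β) (Or' β) (shiftR β (p z) ω) (z + 1 + δ) =
      c + δ ↔ bitAt p δ (shiftR β) (Mr β) (Vr β) (Or' β) ω z = c) := by
    intro ω hG
    have h1 := (hBIT S (RW β → Lb3) β p δ hF (shiftR β) (shiftR_inv hF.inv) (Mr β) (Vr β) (Or' β) ω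
      (fun t ↦ (hG.1 (rootW β) t).1) (fun t ↦ gd_ne hG (w := []) List.isChain_nil t) z).1
    rw [h1]
    exact add_left_inj δ
  have l1 : iid β (lawL3 e) ({x | ((Sr β p δ) x).2.1 δ z = c} ∩ E ∩ shiftR β (p z) ⁻¹' F) =
      iid β (lawL3 e) ({ω | bitAt p δ (shiftR β) (Mr β) (Vr β) (Or' β) ω z = c} ∩ (E' ∩ F')) := by
    apply measure_congr
    filter_upwards [hgd, hgd'] with ω hG hG'
    apply propext
    change ((((Sr β p δ) ω).2.1 δ z = c ∧ ω ∈ E) ∧ shiftR β (p z) ω ∈ F) ↔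
      (bitAt p δ (shiftR β) (Mr β) (Vr β) (Or' β) ω z = c ∧ (NF β p δ z c ω ∈ E ∧
        NF β p δ (z + 1 + δ) (c + δ) (shiftR β (p z) ω) ∈ F))
    rw [show ((Sr β p δ) ω).2.1 δ z = bitAt p δ (shiftR β) (Mr β) (Vr β) (Or' β) ω z from S3_bit ω z]
    constructor
    · rintro ⟨⟨h1, h2⟩, h3⟩
      exact ⟨h1, (sig_nf hLOCB hF hUW hE hG h1).1 h2,
        (sig_nf hLOCB hF hUW hFs hG' ((hedge ω hG).2 h1)).1 h3⟩
    · rintro ⟨h1, h2, h3⟩
      exact ⟨⟨h1, (sig_nf hLOCB hF hUW hE hG h1).2 h2⟩,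
        (sig_nf hLOCB hF hUW hFs hG' ((hedge ω hG).2 h1)).2 h3⟩
  have l2 : iid β (lawL3 e) ({x | ((Sr β p δ) x).2.1 δ z = c} ∩ E) =
      iid β (lawL3 e) ({ω | bitAt p δ (shiftR β) (Mr β) (Vr β) (Or' β) ω z = c} ∩ E') := by
    apply measure_congr
    filter_upwards [hgd] with ω hG
    apply propext
    change (((Sr β p δ) ω).2.1 δ z = c ∧ ω ∈ E) ↔
      (bitAt p δ (shiftR β) (Mr β) (Vr β) (Or' β) ω z = c ∧ NF β p δ z c ω ∈ E)
    rw [show ((Sr β p δ) ω).2.1 δ z = bitAt p δ (shiftR β) (Mr β) (Vr β) (Or' β) ω z from S3_bit ω z]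
    exact and_congr_right fun h1 ↦ sig_nf hLOCB hF hUW hE hG h1
  have l3 : iid β (lawL3 e) ({x | ((Sr β p δ) x).2.1 δ (z + 1 + δ) = c + δ} ∩ F) =
      iid β (lawL3 e) ({ω | bitAt p δ (shiftR β) (Mr β) (Vr β) (Or' β) ω z = c} ∩ F') := by
    have hms : MeasurableSet ({x | ((Sr β p δ) x).2.1 δ (z + 1 + δ) = c + δ} ∩ F) := by
      have h1 : {x | ((Sr β p δ) x).2.1 δ (z + 1 + δ) = c + δ} =
          {ω | bitAt p δ (shiftR β) (Mr β) (Vr β) (Or' β) ω (z + 1 + δ) = c + δ} := by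
        ext x
        simp only [Set.mem_ofPred_eq]
        rw [show ((Sr β p δ) x).2.1 δ (z + 1 + δ) =
          bitAt p δ (shiftR β) (Mr β) (Vr β) (Or' β) x (z + 1 + δ) from S3_bit x _]
      rw [h1]
      exact (bit_meas (p := p) (δ := δ) hMEAS hs (z + 1 + δ)
        (measurableSet_singleton (c + δ))).inter hFm
    rw [← (hsys.mp (p z)).measure_preimage hms.nullMeasurableSet]
    apply measure_congr
    filter_upwards [hgd, hgd'] with ω hG hG'
    apply propext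
    change (((Sr β p δ) (shiftR β (p z) ω)).2.1 δ (z + 1 + δ) = c + δ ∧ shiftR β (p z) ω ∈ F) ↔
      (bitAt p δ (shiftR β) (Mr β) (Vr β) (Or' β) ω z = c ∧
        NF β p δ (z + 1 + δ) (c + δ) (shiftR β (p z) ω) ∈ F)
    rw [show ((Sr β p δ) (shiftR β (p z) ω)).2.1 δ (z + 1 + δ) =
      bitAt p δ (shiftR β) (Mr β) (Vr β) (Or' β) (shiftR β (p z) ω) (z + 1 + δ) from S3_bit _ _,
      hedge ω hG]
    exact and_congr_right fun h1 ↦ sig_nf hLOCB hF hUW hFs hG' ((hedge ω hG).2 h1)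
  rw [l1, l2, l3]
  have k4 : 2 * iid β (lawL3 e) ({ω | bitAt p δ (shiftR β) (Mr β) (Vr β) (Or' β) ω z = c} ∩ (E' ∩ F')) =
      2 * (2 * iid β (lawL3 e) ({ω | bitAt p δ (shiftR β) (Mr β) (Vr β) (Or' β) ω z = c} ∩ E') *
        iid β (lawL3 e) ({ω | bitAt p δ (shiftR β) (Mr β) (Vr β) (Or' β) ω z = c} ∩ F')) := by
    rw [k1, hind, ← k2, ← k3]
    ring
  exact (ENNReal.mul_right_inj two_ne_zero ENNReal.ofNat_ne_top).1 k4

end Meas

theorem glue3 (hLOCB : S_LOCB) (hUW : S_UW) (hBLK : S_BLK) (hBIT : S_BIT) (hFAR : S_FAR)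
    (hPRB : S_PRB) (hMEAS : S_MEAS) (hMOD : S_MODSYS) : S_GLUE3 := by
  intro S _ β p δ hF e he s z c E F hE hFs
  exact glue3_core hLOCB hUW hBLK hBIT hFAR hPRB hMEAS hMOD hF e he z c E F hE hFs

end Pool.Agent.Helper8.OB
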